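import Pool.Agent.Helper71.E5.Stmts
import Pool.Agent.Helper71.E5.AXAll

/-!
MP_efd95c_co, rows FIN, PMONO, PISO, PPERM, TOUCH of the sheet E5 (the perimeter as a function
of the centres), and homotheties.
-/

set_option autoImplicit false

open scoped MeasureTheory ENNReal Topology
open Complex

noncomputable section

namespace E5

theorem K_zero (r : ℝ) (c : Fin 0 → ℂ) : AX.K r c = Set.univ := by
  unfold AX.K
  exact Set.iInter_of_empty _

theorem mem_K {n : ℕ} {r : ℝ} {c : Fin n → ℂ} {x : ℂ} : x ∈ AX.K r c ↔ ∀ i, dist x (c i) ≤ r := by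
  unfold AX.K
  simp [Metric.mem_closedBall]

theorem per_zero (c : Fin 0 → ℂ) : per c = 0 := by
  unfold per
  rw [K_zero, frontier_univ]
  simp

theorem fin_one (x : ℂ) (r : ℝ) (hr : 0 < r) :
    μH[1] (frontier (AX.K r (fun _ : Fin 1 => x))) ≤ ENNReal.ofReal (r * (2 * Real.pi)) := by
  rw [axPER 0 r (fun _ => x) (fun _ => 0) hr (fun a b _ => Subsingleton.elim (α := Fin 1) a b)]
  rw [ENNReal.ofReal_mul hr.le]
  refine mul_le_mul_right ?_ _
  rw [Fin.sum_univ_one]
  refine (MeasureTheory.measure_mono Set.inter_subset_right).trans ?_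
  rw [Real.volume_Ico]
  refine ENNReal.ofReal_le_ofReal ?_
  linarith

theorem FIN : ST_FIN := by
  intro n c
  rcases n with _ | n
  · rw [K_zero, frontier_univ]
    simp
  · have h1 : AX.K 1 c ⊆ AX.K 1 (fun _ : Fin 1 => c 0) := by
      intro x hx
      rw [mem_K] at hx ⊢
      intro _
      exact hx 0
    have h2 := axMONO n 1 c _ one_pos h1 (AX.cpx_K_compact 1 _)
    have h3 := fin_one (c 0) 1 one_pos
    exact ne_top_of_le_ne_top ENNReal.ofReal_ne_top (h2.trans h3)

theorem PMONO : ST_PMONO := by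
  intro n m c d h
  unfold per
  exact ENNReal.toReal_mono (FIN _ d) (axMONO n 1 c _ one_pos h (AX.cpx_K_compact 1 _))

theorem PISO : ST_PISO := by
  intro n c f
  have h1 : AX.K 1 (fun i => f (c i)) = f '' (AX.K 1 c) := by
    ext z
    obtain ⟨y, rfl⟩ := f.surjective z
    rw [f.injective.mem_set_image, mem_K, mem_K]
    simp only [f.dist_eq]
  unfold per
  rw [h1]
  have h2 : frontier (f '' (AX.K 1 c)) = f '' frontier (AX.K 1 c) :=
    (f.toHomeomorph.image_frontier _).symm
  rw [h2, f.hausdorffMeasure_image]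

theorem PPERM : ST_PPERM := by
  intro n c σ
  have h1 : AX.K 1 (fun i => c (σ i)) = AX.K 1 c := by
    ext z
    rw [mem_K, mem_K]
    constructor
    · intro h i
      have := h (σ.symm i)
      rwa [σ.apply_symm_apply] at this
    · intro h i
      exact h (σ i)
  unfold per
  rw [h1]

theorem TOUCH : ST_TOUCH := by
  intro n p q hc hT
  unfold per
  refine ENNReal.toReal_mono (FIN _ q) ?_
  have h1 := axCPX n 1 p q Finset.univ one_pos hc (by simp) ?_
  · exact h1
  · intro i _
    obtain ⟨θ, hθ⟩ := hT i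
    unfold AX.T at hθ
    rw [Set.mem_ofPred_eq, mem_K] at hθ
    refine ⟨_, ?_, fun j _ => hθ j⟩
    rw [dist_eq_norm, add_sub_cancel_left, norm_mul]
    unfold AX.e
    rw [Complex.norm_exp_ofReal_mul_I]
    simp

/-- the homothety with centre `z` and factor `s` -/
def hom (z : ℂ) (s : ℝ) (x : ℂ) : ℂ := z + (s : ℂ) * (x - z)

/-- the homothety as a homeomorphism -/
def homH (z : ℂ) (s : ℝ) (hs : s ≠ 0) : ℂ ≃ₜ ℂ where
  toFun := hom z s
  invFun := hom z s⁻¹
  left_inv := by
    intro x
    have : (s : ℂ) ≠ 0 := by exact_mod_cast hs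
    unfold hom
    push_cast
    field_simp
    ring
  right_inv := by
    intro x
    have : (s : ℂ) ≠ 0 := by exact_mod_cast hs
    unfold hom
    push_cast
    field_simp
    ring
  continuous_toFun := by unfold hom; fun_prop
  continuous_invFun := by unfold hom; fun_prop

theorem hom_dist (z : ℂ) (s : ℝ) (hs : 0 ≤ s) (x y : ℂ) :
    dist (hom z s x) (hom z s y) = s * dist x y := by
  unfold hom
  rw [dist_eq_norm, dist_eq_norm]
  have h1 : z + (s : ℂ) * (x - z) - (z + (s : ℂ) * (y - z)) = (s : ℂ) * (x - y) := by ring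
  rw [h1, norm_mul, Complex.norm_real, Real.norm_eq_abs, abs_of_nonneg hs]

theorem hom_K {n : ℕ} (z : ℂ) (s r : ℝ) (hs : 0 < s) (c : Fin n → ℂ) :
    AX.K (s * r) (fun i => hom z s (c i)) = hom z s '' (AX.K r c) := by
  ext y
  obtain ⟨x, rfl⟩ := (homH z s hs.ne').surjective y
  have h1 : (homH z s hs.ne') x = hom z s x := rfl
  have hinj : Function.Injective (hom z s) := (homH z s hs.ne').injective
  rw [h1, hinj.mem_set_image, mem_K, mem_K]
  simp only [hom_dist z s hs.le]
  exact forall_congr' fun i => mul_le_mul_iff_right₀ hs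

theorem hom_meas (z : ℂ) (s : ℝ) (hs : 0 < s) (A : Set ℂ) :
    μH[1] (hom z s '' A) = ENNReal.ofReal s * μH[1] A := by
  have h1 : hom z s = (AffineMap.homothety z s : ℂ → ℂ) := by
    funext x
    rw [AffineMap.homothety_apply]
    unfold hom
    simp
    ring
  rw [h1, MeasureTheory.hausdorffMeasure_homothety_image zero_le_one z hs.ne']
  have h2 : ‖s‖₊ ^ (1 : ℝ) = Real.toNNReal s := by
    rw [NNReal.rpow_one]
    ext
    rw [coe_nnnorm, Real.norm_eq_abs, abs_of_pos hs, Real.coe_toNNReal s hs.le]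
  rw [h2]
  rfl

theorem hom_frontier (z : ℂ) (s : ℝ) (hs : 0 < s) (A : Set ℂ) :
    frontier (hom z s '' A) = hom z s '' frontier A :=
  ((homH z s hs.ne').image_frontier A).symm

theorem hom_front {n : ℕ} (z : ℂ) (s r : ℝ) (hs : 0 < s) (c : Fin n → ℂ) :
    μH[1] (frontier (AX.K (s * r) (fun i => hom z s (c i)))) =
      ENNReal.ofReal s * μH[1] (frontier (AX.K r c)) := by
  rw [hom_K z s r hs c, hom_frontier z s hs, hom_meas z s hs]

end E5
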