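import Pool.Agent.Helper72.E5.A

/-!
MP_efd95c_co, row PCONT of the sheet E5: the perimeter depends continuously on the centres.
-/

set_option autoImplicit false

open scoped MeasureTheory ENNReal Topology
open Complex Filter

noncomputable section

namespace E5

theorem per_nonneg {n : ℕ} (c : Fin n → ℂ) : 0 ≤ per c := ENNReal.toReal_nonneg

theorem per_le_hom {n m : ℕ} (c : Fin (n + 1) → ℂ) (c' : Fin (m + 1) → ℂ) (z : ℂ) (s : ℝ)
    (hs : 0 < s) (h : hom z s '' AX.K 1 c ⊆ AX.K 1 c') : s * per c ≤ per c' := by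
  have h1 : AX.K s (fun i => hom z s (c i)) ⊆ AX.K 1 c' := by
    have h2 := hom_K z s 1 hs c
    rw [mul_one] at h2
    rw [h2]
    exact h
  have h2 := axMONO n s _ _ hs h1 (AX.cpx_K_compact 1 _)
  have h3 := hom_front z s 1 hs c
  rw [mul_one] at h3
  rw [h3] at h2
  unfold per
  have h4 := ENNReal.toReal_mono (FIN _ c') h2
  rwa [ENNReal.toReal_mul, ENNReal.toReal_ofReal hs.le] at h4

theorem per_le_ball {n : ℕ} (c : Fin (n + 1) → ℂ) (x : ℂ) (ρ : ℝ) (hρ : 0 < ρ)
    (h : AX.K 1 c ⊆ Metric.closedBall x ρ) : per c ≤ ρ * (2 * Real.pi) := by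
  have h1 : AX.K 1 c ⊆ AX.K ρ (fun _ : Fin 1 => x) := by
    intro y hy
    rw [mem_K]
    intro _
    exact h hy
  have h2 := (axMONO n 1 c _ one_pos h1 (AX.cpx_K_compact ρ _)).trans (fin_one x ρ hρ)
  unfold per
  have h3 := ENNReal.toReal_mono ENNReal.ofReal_ne_top h2
  rwa [ENNReal.toReal_ofReal (by positivity)] at h3

theorem near {n : ℕ} (c₀ : Fin n → ℂ) (η : ℝ) (hη : 0 < η) :
    ∀ᶠ c in 𝓝 c₀, ∀ i, dist (c i) (c₀ i) ≤ η := by
  filter_upwards [Metric.closedBall_mem_nhds c₀ hη] with c hc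
  exact (dist_pi_le_iff hη.le).1 (Metric.mem_closedBall.1 hc)

theorem dist_hom_le (z : ℂ) (s : ℝ) (hs : 0 ≤ s) (hs1 : s ≤ 1) (x a : ℂ) :
    dist (hom z s x) a ≤ (1 - s) * dist z a + s * dist x a := by
  unfold hom
  rw [dist_eq_norm, dist_eq_norm, dist_eq_norm]
  have h1 : z + (s : ℂ) * (x - z) - a = ((1 - s : ℝ) : ℂ) * (z - a) + (s : ℂ) * (x - a) := by
    push_cast
    ring
  rw [h1]
  refine (norm_add_le _ _).trans ?_
  rw [norm_mul, norm_mul, Complex.norm_real, Complex.norm_real, Real.norm_eq_abs,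
    Real.norm_eq_abs, abs_of_nonneg hs, abs_of_nonneg (by linarith)]

/-- the case of a nonempty interior -/
theorem pcont_int {n : ℕ} (c₀ : Fin (n + 1) → ℂ) (h : (interior (AX.K 1 c₀)).Nonempty) :
    ContinuousAt (fun c : Fin (n + 1) → ℂ => per c) c₀ := by
  obtain ⟨z, hz⟩ := h
  have hlt : ∀ i, dist z (c₀ i) < 1 := by
    intro i
    have h1 : z ∈ interior (Metric.closedBall (c₀ i) 1) :=
      interior_mono (Set.iInter_subset _ i) hz
    rw [interior_closedBall _ one_ne_zero, Metric.mem_ball] at h1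
    exact h1
  obtain ⟨i₀, hi₀⟩ := Finite.exists_max (fun i => dist z (c₀ i))
  obtain ⟨δ, hδ, hδi⟩ : ∃ δ > 0, ∀ i, dist z (c₀ i) ≤ 1 - δ :=
    ⟨1 - dist z (c₀ i₀), by linarith [hlt i₀], fun i => by linarith [hi₀ i]⟩
  have key : ∀ s : ℝ, 0 < s → s < 1 → ∀ᶠ c in 𝓝 c₀, s * per c₀ ≤ per c ∧ s * per c ≤ per c₀ := by
    intro s hs hs1
    have hη : 0 < (1 - s) * δ := mul_pos (by linarith) hδ
    filter_upwards [near c₀ ((1 - s) * δ) hη] with c hc
    constructor
    · refine per_le_hom c₀ c z s hs ?_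
      rintro _ ⟨x, hx, rfl⟩
      rw [mem_K] at hx ⊢
      intro i
      have h1 := dist_hom_le z s hs.le hs1.le x (c₀ i)
      have h2 := dist_triangle (hom z s x) (c₀ i) (c i)
      have h3 := hc i
      rw [dist_comm] at h3
      have h4 : (1 - s) * dist z (c₀ i) ≤ (1 - s) * (1 - δ) :=
        mul_le_mul_of_nonneg_left (hδi i) (by linarith)
      have h5 : s * dist x (c₀ i) ≤ s * 1 := mul_le_mul_of_nonneg_left (hx i) hs.le
      nlinarith
    · refine per_le_hom c c₀ z s hs ?_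
      rintro _ ⟨x, hx, rfl⟩
      rw [mem_K] at hx ⊢
      intro i
      have h1 := dist_hom_le z s hs.le hs1.le x (c₀ i)
      have h2 := dist_triangle x (c i) (c₀ i)
      have h4 : (1 - s) * dist z (c₀ i) ≤ (1 - s) * (1 - δ) :=
        mul_le_mul_of_nonneg_left (hδi i) (by linarith)
      have h5 : s * dist x (c₀ i) ≤ s * (1 + (1 - s) * δ) :=
        mul_le_mul_of_nonneg_left (by linarith [hx i, hc i]) hs.le
      have h6 : 0 ≤ (1 - s) * ((1 - s) * δ) := mul_nonneg (by linarith) hη.le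
      nlinarith
  have hT : ∀ P : ℝ, Tendsto (fun s : ℝ => s * P) (𝓝[<] 1) (𝓝 P) := by
    intro P
    have h1 : Tendsto (fun s : ℝ => s * P) (𝓝 1) (𝓝 (1 * P)) :=
      (continuous_id.mul continuous_const).tendsto 1
    rw [one_mul] at h1
    exact h1.mono_left nhdsWithin_le_nhds
  have hI : ∀ᶠ s : ℝ in 𝓝[<] 1, s ∈ Set.Ioo (0 : ℝ) 1 := Ioo_mem_nhdsLT one_pos
  refine tendsto_order.2 ⟨?_, ?_⟩
  · intro a ha
    obtain ⟨s, hs1, hs2⟩ := (((hT (per c₀)).eventually (lt_mem_nhds ha)).and hI).exists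
    filter_upwards [key s hs2.1 hs2.2] with c hc
    exact lt_of_lt_of_le hs1 hc.1
  · intro a ha
    obtain ⟨s, hs1, hs2⟩ := (((hT a).eventually (lt_mem_nhds ha)).and hI).exists
    filter_upwards [key s hs2.1 hs2.2] with c hc
    exact lt_of_mul_lt_mul_left (lt_of_le_of_lt hc.2 hs1) hs2.1.le

/-- the case of an intersection without interior points -/
theorem pcont_pt {n : ℕ} (c₀ : Fin (n + 1) → ℂ) (h : ¬ (interior (AX.K 1 c₀)).Nonempty)
    (x : ℂ) (hx : x ∈ AX.K 1 c₀) :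
    ContinuousAt (fun c : Fin (n + 1) → ℂ => per c) c₀ := by
  rw [mem_K] at hx
  have key : ∀ ε : ℝ, 0 < ε → ∀ᶠ c in 𝓝 c₀, per c ≤ ε * (2 * Real.pi) := by
    intro ε hε
    obtain ⟨η, hη, hη1, hηε⟩ : ∃ η > 0, η ≤ 1 ∧ 6 * η ≤ ε ^ 2 := by
      refine ⟨min 1 (ε ^ 2 / 6), by positivity, min_le_left _ _, ?_⟩
      have := min_le_right (1 : ℝ) (ε ^ 2 / 6)
      linarith
    filter_upwards [near c₀ η hη] with c hc
    refine per_le_ball c x ε hε ?_
    intro y hy
    rw [mem_K] at hy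
    rw [Metric.mem_closedBall]
    by_contra hcon
    push Not at hcon
    apply h
    refine ⟨(1 / 2 : ℝ) • (x + y), ?_⟩
    rw [mem_interior]
    refine ⟨⋂ i, Metric.ball (c₀ i) 1, Set.iInter_mono fun i => Metric.ball_subset_closedBall,
      isOpen_iInter_of_finite fun _ => Metric.isOpen_ball, ?_⟩
    rw [Set.mem_iInter]
    intro i
    rw [Metric.mem_ball, dist_eq_norm]
    have h1 := hx i
    have h2 : dist y (c₀ i) ≤ 1 + η := by
      have := dist_triangle y (c i) (c₀ i)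
      linarith [hy i, hc i]
    rw [dist_eq_norm] at h1 h2 hcon
    have h3 : (1 / 2 : ℝ) • (x + y) - c₀ i = (1 / 2 : ℝ) • ((x - c₀ i) + (y - c₀ i)) := by
      rw [Complex.real_smul, Complex.real_smul]
      push_cast
      ring
    have h4 := parallelogram_law_with_norm ℝ (x - c₀ i) (y - c₀ i)
    have h5 : (x - c₀ i) - (y - c₀ i) = -(y - x) := by ring
    rw [h5, norm_neg] at h4
    rw [h3, norm_smul, Real.norm_eq_abs, abs_of_pos (by norm_num : (0 : ℝ) < 1 / 2)]
    have h6 : ‖x - c₀ i‖ ^ 2 ≤ 1 := by nlinarith [norm_nonneg (x - c₀ i)]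
    have h7 : ‖y - c₀ i‖ ^ 2 ≤ (1 + η) ^ 2 := by nlinarith [norm_nonneg (y - c₀ i)]
    have h8 : ε ^ 2 < ‖y - x‖ ^ 2 := by nlinarith [norm_nonneg (y - x)]
    have h9 : ‖x - c₀ i + (y - c₀ i)‖ ^ 2 < 4 := by nlinarith
    nlinarith [norm_nonneg (x - c₀ i + (y - c₀ i))]
  have h0 : per c₀ = 0 := by
    refine le_antisymm ?_ (per_nonneg c₀)
    refine le_of_forall_pos_le_add fun ε hε => ?_
    have h1 := (key (ε / (2 * Real.pi)) (by positivity)).self_of_nhds
    rw [div_mul_cancel₀ _ (by positivity)] at h1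
    linarith
  refine tendsto_order.2 ⟨?_, ?_⟩
  · intro a ha
    simp only [h0] at ha
    exact Eventually.of_forall fun c => lt_of_lt_of_le ha (per_nonneg c)
  · intro a ha
    simp only [h0] at ha
    filter_upwards [key (a / (4 * Real.pi)) (by positivity)] with c hc
    have h1 : a / (4 * Real.pi) * (2 * Real.pi) = a / 2 := by
      field_simp
      ring
    rw [h1] at hc
    linarith

/-- the case of an empty intersection -/
theorem pcont_empty {n : ℕ} (c₀ : Fin (n + 1) → ℂ) (h : ¬ (AX.K 1 c₀).Nonempty) :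
    ContinuousAt (fun c : Fin (n + 1) → ℂ => per c) c₀ := by
  have h1 : ∀ᶠ c in 𝓝 c₀, ∀ y ∈ Metric.closedBall (c₀ 0) 2, ∃ i, 1 < dist y (c i) := by
    refine (isCompact_closedBall (c₀ 0) 2).eventually_forall_of_forall_eventually ?_
    intro y _
    have h2 : ∃ i, 1 < dist y (c₀ i) := by
      by_contra hcon
      push Not at hcon
      exact h ⟨y, mem_K.2 hcon⟩
    obtain ⟨i, hi⟩ := h2
    have h3 : Continuous (fun z : (Fin (n + 1) → ℂ) × ℂ => dist z.2 (z.1 i)) := by fun_prop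
    have h4 := h3.tendsto (c₀, y)
    filter_upwards [h4.eventually (lt_mem_nhds hi)] with z hz
    exact ⟨i, hz⟩
  have h2 : ∀ᶠ c in 𝓝 c₀, per c = 0 := by
    filter_upwards [h1, near c₀ 1 one_pos] with c hc hc1
    have h3 : AX.K 1 c = ∅ := by
      rw [Set.eq_empty_iff_forall_notMem]
      intro y hy
      rw [mem_K] at hy
      obtain ⟨i, hi⟩ := hc y (by
        rw [Metric.mem_closedBall]
        have := dist_triangle y (c 0) (c₀ 0)
        linarith [hy 0, hc1 0])
      linarith [hy i]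
    unfold per
    rw [h3, frontier_empty]
    simp
  have h3 : (fun c : Fin (n + 1) → ℂ => per c) =ᶠ[𝓝 c₀] fun _ => 0 := h2
  exact continuousAt_const.congr h3.symm

theorem PCONT : ST_PCONT := by
  intro n
  rcases n with _ | n
  · have h1 : (fun c : Fin 0 → ℂ => per c) = fun _ => 0 := by
      funext c
      exact per_zero c
    rw [h1]
    exact continuous_const
  · rw [continuous_iff_continuousAt]
    intro c₀
    by_cases h : (AX.K 1 c₀).Nonempty
    · by_cases h2 : (interior (AX.K 1 c₀)).Nonempty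
      · exact pcont_int c₀ h2
      · obtain ⟨x, hx⟩ := h
        exact pcont_pt c₀ h2 x hx
    · exact pcont_empty c₀ h

end E5
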