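import Pool.Agent.Helper71.E5.WStmts2
import Pool.Agent.Helper29.E5.WP
import Pool.Agent.Helper29.E5.ORI
import Pool.Agent.Helper49.E5.TRI
import Pool.Agent.Helper55.E5.WARC
import Pool.Agent.Helper55.E5.D2

/-!
MP_efd95c_co, contractions of at most five disks: the real data of the wheel of `p` (type C).
-/

set_option autoImplicit false

open scoped MeasureTheory ENNReal Topology
open Complex

noncomputable section

namespace E5

/-- distance in polar coordinates -/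
theorem rp_dist (r s φ θ : ℝ) :
    ‖(r : ℂ) * AX.e φ - (s : ℂ) * AX.e (φ + θ)‖ = ch r s θ := by
  have h1 : (r : ℂ) * AX.e φ - (s : ℂ) * AX.e (φ + θ) =
      AX.e φ * ((r : ℂ) - (s : ℂ) * AX.e θ) := by
    rw [we_add55]; ring
  have h2 : (starRingEnd ℂ) ((r : ℂ) - (s : ℂ) * AX.e θ) = (r : ℂ) - (s : ℂ) * AX.e (-θ) := by
    rw [map_sub, map_mul, Complex.conj_ofReal, Complex.conj_ofReal, we_conj55]
  rw [h1, norm_mul, we_norm55, one_mul, ← Complex.norm_conj, h2, un_norm]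

/-- the norm of `R e(φ) + e(β)` -/
theorem rp_sq (R φ β : ℝ) :
    ‖(R : ℂ) * AX.e φ + AX.e β‖ ^ 2 = R ^ 2 + 1 + 2 * R * Real.cos (β - φ) := by
  rw [Complex.sq_norm, Complex.normSq_apply, Complex.add_re, Complex.add_im,
    Complex.re_ofReal_mul, Complex.im_ofReal_mul, we_re55, we_im55, we_re55, we_im55, Real.cos_sub]
  linear_combination R ^ 2 * Real.sin_sq_add_cos_sq φ + Real.sin_sq_add_cos_sq β

theorem rp_h0 {R U : ℝ} (hR : R < 2 * Real.sin U) (hU0 : 0 < U) : h0 R < U := by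
  unfold h0
  rcases le_or_gt U (Real.pi / 2) with h | h
  · calc Real.arcsin (R / 2) < Real.arcsin (Real.sin U) := by
          by_cases hR1 : -1 ≤ R / 2
          · exact Real.strictMonoOn_arcsin ⟨hR1, by linarith [Real.sin_le_one U]⟩
              ⟨Real.neg_one_le_sin U, Real.sin_le_one U⟩ (by linarith)
          · have h1 : Real.arcsin (R / 2) = -(Real.pi / 2) :=
              Real.arcsin_of_le_neg_one (by linarith)
            rw [h1, Real.arcsin_sin (by linarith) h]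
            linarith [Real.pi_pos]
      _ = U := Real.arcsin_sin (by linarith [Real.pi_pos]) h
  · exact (Real.arcsin_le_pi_div_two _).trans_lt h

/-- forward arc -/
theorem rp_fwd {R φ β U : ℝ} (hR : 0 < R) (hU0 : 0 < U)
    (h : ‖(R : ℂ) * AX.e φ + AX.e β‖ < 1) (hβ : AX.e β = AX.e (φ + 3 * Real.pi / 2 - U)) :
    h0 R < U := by
  apply rp_h0 _ hU0
  rw [hβ] at h
  have h1 := rp_sq R φ (φ + 3 * Real.pi / 2 - U)
  have h2 : Real.cos (φ + 3 * Real.pi / 2 - U - φ) = - Real.sin U := by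
    have : φ + 3 * Real.pi / 2 - U - φ = (Real.pi / 2 - U) + Real.pi := by ring
    rw [this, Real.cos_add_pi, Real.cos_pi_div_two_sub]
  rw [h2] at h1
  have h3 : ‖(R : ℂ) * AX.e φ + AX.e (φ + 3 * Real.pi / 2 - U)‖ ^ 2 < 1 := by
    have := norm_nonneg ((R : ℂ) * AX.e φ + AX.e (φ + 3 * Real.pi / 2 - U))
    nlinarith
  rw [h1] at h3
  nlinarith

/-- backward arc -/
theorem rp_bwd {R φ α U : ℝ} (hR : 0 < R) (hU0 : 0 < U)
    (h : ‖(R : ℂ) * AX.e φ + AX.e α‖ < 1) (hα : AX.e α = AX.e (φ + Real.pi / 2 + U)) :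
    h0 R < U := by
  apply rp_h0 _ hU0
  rw [hα] at h
  have h1 := rp_sq R φ (φ + Real.pi / 2 + U)
  have h2 : Real.cos (φ + Real.pi / 2 + U - φ) = - Real.sin U := by
    have : φ + Real.pi / 2 + U - φ = U + Real.pi / 2 := by ring
    rw [this, Real.cos_add_pi_div_two]
  rw [h2] at h1
  have h3 : ‖(R : ℂ) * AX.e φ + AX.e (φ + Real.pi / 2 + U)‖ ^ 2 < 1 := by
    have := norm_nonneg ((R : ℂ) * AX.e φ + AX.e (φ + Real.pi / 2 + U))
    nlinarith
  rw [h1] at h3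
  nlinarith

/-- the hub is strictly inside the unit disk around every corner -/
theorem rp_corner {p : Fin 5 → ℂ} {g : ℤ → Fin 5} {a b : ℤ → ℝ} (h : HD p 4 g a b)
    (hp0 : p 0 = 0) (hg : ∀ k, g k ≠ 0) :
    (∀ k, ‖p (g k) + AX.e (b k)‖ < 1) ∧ ∀ k, ‖p (g k) + AX.e (a k)‖ < 1 := by
  have h1 : ∀ k, ‖p (g k) + AX.e (b k)‖ < 1 := by
    intro k
    have hb := hd_bT h k
    have hK : p (g k) + AX.e (b k) ∈ AX.K 1 p := by
      have := hb
      unfold AX.T at this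
      rw [Set.mem_ofPred_eq, Complex.ofReal_one, one_mul] at this
      exact this
    have hle : ‖p (g k) + AX.e (b k)‖ ≤ 1 := by
      unfold AX.K at hK
      have h2 := Set.mem_iInter.1 hK 0
      rwa [Metric.mem_closedBall, hp0, dist_zero_right] at h2
    rcases hle.lt_or_eq with h2 | h2
    · exact h2
    · exfalso
      have h3 : p (g k) + AX.e (b k) = AX.e (Complex.arg (p (g k) + AX.e (b k))) := by
        have h4 := Complex.norm_mul_exp_arg_mul_I (p (g k) + AX.e (b k))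
        rw [h2, Complex.ofReal_one, one_mul] at h4
        exact h4.symm
      have h5 : (AX.T 1 p 0).Nonempty := by
        refine ⟨Complex.arg (p (g k) + AX.e (b k)), ?_⟩
        unfold AX.T
        rw [Set.mem_ofPred_eq, Complex.ofReal_one, one_mul, hp0, zero_add, ← h3]
        exact hK
      obtain ⟨l, hl⟩ := h.cov 0 h5
      exact hg l hl
  refine ⟨h1, fun k => ?_⟩
  have h2 := h.corner (k - 1)
  rw [sub_add_cancel] at h2
  rw [← h2]
  exact h1 (k - 1)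

theorem rp_lg (x y : ℂ) : lg x y = 2 * Real.arcsin (dist x y / 2) := by
  unfold lg AX.dl
  rw [mul_one]

theorem RP : ST_RP := by
  intro p ap bp hHD hp0 hcr hlg hnk
  obtain ⟨φ, t, ht, htp, hφ, hts, hpol, hpos, heb, hea, hba, hch⟩ :=
    WP TRI st_WARC p gC ap bp hHD hp0 hcr
  -- the indices
  have g0 : gC 0 = 1 := by decide
  have g1 : gC 1 = 3 := by decide
  have g2 : gC 2 = 2 := by decide
  have g3 : gC 3 = 4 := by decide
  have g4 : gC 4 = 1 := by decide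
  have gm : gC (-1) = 4 := by decide
  have hg : ∀ k, gC k ≠ 0 := by
    intro k
    unfold gC
    split_ifs <;> decide
  have tm : t (-1) = t 3 := by
    have := htp (-1)
    rw [show (-1 : ℤ) + 4 = 3 by norm_num] at this
    exact this.symm
  obtain ⟨hcb, hca⟩ := rp_corner hHD hp0 hg
  -- positivity
  have R1 : 0 < ‖p 1‖ := by have := hpos 0; rwa [g0] at this
  have R3 : 0 < ‖p 3‖ := by have := hpos 1; rwa [g1] at this
  have R2 : 0 < ‖p 2‖ := by have := hpos 2; rwa [g2] at this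
  have R4 : 0 < ‖p 4‖ := by have := hpos 3; rwa [g3] at this
  -- polar coordinates
  have q1 : p 1 = (‖p 1‖ : ℂ) * AX.e (φ 0) := by have := hpol 0; rwa [g0] at this
  have f1 : φ 1 = φ 0 + t 0 := by have := hφ 0; rwa [zero_add] at this
  have f2 : φ 2 = φ 0 + t 0 + t 1 := by
    have := hφ 1
    rw [show (1 : ℤ) + 1 = 2 by norm_num, f1] at this
    exact this
  have f3 : φ 3 = φ 0 + t 0 + t 1 + t 2 := by
    have := hφ 2
    rw [show (2 : ℤ) + 1 = 3 by norm_num, f2] at this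
    exact this
  have q3 : p 3 = (‖p 3‖ : ℂ) * AX.e (φ 0 + t 0) := by have := hpol 1; rwa [g1, f1] at this
  have q2 : p 2 = (‖p 2‖ : ℂ) * AX.e (φ 0 + t 0 + t 1) := by
    have := hpol 2; rwa [g2, f2] at this
  have q4 : p 4 = (‖p 4‖ : ℂ) * AX.e (φ 0 + t 0 + t 1 + t 2) := by
    have := hpol 3; rwa [g3, f3] at this
  -- chords
  have c0 : ch ‖p 1‖ ‖p 3‖ (t 0) < 2 := by
    have := hch 0; rwa [zero_add, g0, g1] at this
  have c1 : ch ‖p 3‖ ‖p 2‖ (t 1) < 2 := by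
    have := hch 1; rwa [show (1 : ℤ) + 1 = 2 by norm_num, g1, g2] at this
  have c2 : ch ‖p 2‖ ‖p 4‖ (t 2) < 2 := by
    have := hch 2; rwa [show (2 : ℤ) + 1 = 3 by norm_num, g2, g3] at this
  have c3 : ch ‖p 4‖ ‖p 1‖ (t 3) < 2 := by
    have := hch 3; rwa [show (3 : ℤ) + 1 = 4 by norm_num, g3, g4] at this
  have hd2 := D2 5 p hHD.int
  have hR2 : ∀ i, ‖p i‖ < 2 := by
    intro i
    have := hd2 i 0
    rwa [hp0, dist_zero_right] at this
  have c02 : ch ‖p 1‖ ‖p 2‖ (t 0 + t 1) < 2 := by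
    have h1 := hd2 1 2
    rw [dist_eq_norm, q1, q2, add_assoc, rp_dist] at h1
    exact h1
  have c13 : ch ‖p 3‖ ‖p 4‖ (t 1 + t 2) < 2 := by
    have h1 := hd2 3 4
    rw [dist_eq_norm, q3, q4, show φ 0 + t 0 + t 1 + t 2 = (φ 0 + t 0) + (t 1 + t 2) by ring,
      rp_dist] at h1
    exact h1
  -- triangles
  have T0 := TRI ‖p 1‖ ‖p 3‖ (t 0) R1 R3 (ht 0).1 (ht 0).2 c0
  have T0' := TRI ‖p 3‖ ‖p 1‖ (t 0) R3 R1 (ht 0).1 (ht 0).2 (by rw [wp_ch_symm]; exact c0)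
  have T1 := TRI ‖p 3‖ ‖p 2‖ (t 1) R3 R2 (ht 1).1 (ht 1).2 c1
  have T1' := TRI ‖p 2‖ ‖p 3‖ (t 1) R2 R3 (ht 1).1 (ht 1).2 (by rw [wp_ch_symm]; exact c1)
  have T2 := TRI ‖p 2‖ ‖p 4‖ (t 2) R2 R4 (ht 2).1 (ht 2).2 c2
  have T2' := TRI ‖p 4‖ ‖p 2‖ (t 2) R4 R2 (ht 2).1 (ht 2).2 (by rw [wp_ch_symm]; exact c2)
  have T3 := TRI ‖p 4‖ ‖p 1‖ (t 3) R4 R1 (ht 3).1 (ht 3).2 c3
  have T3' := TRI ‖p 1‖ ‖p 4‖ (t 3) R1 R4 (ht 3).1 (ht 3).2 (by rw [wp_ch_symm]; exact c3)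
  have u0 : 0 < UU ‖p 1‖ ‖p 3‖ (t 0) := by unfold UU; linarith [T0.2.2.1, T0.2.2.2.2.1]
  have u0' : 0 < UU ‖p 3‖ ‖p 1‖ (t 0) := by unfold UU; linarith [T0'.2.2.1, T0'.2.2.2.2.1]
  have u1 : 0 < UU ‖p 3‖ ‖p 2‖ (t 1) := by unfold UU; linarith [T1.2.2.1, T1.2.2.2.2.1]
  have u1' : 0 < UU ‖p 2‖ ‖p 3‖ (t 1) := by unfold UU; linarith [T1'.2.2.1, T1'.2.2.2.2.1]
  have u2 : 0 < UU ‖p 2‖ ‖p 4‖ (t 2) := by unfold UU; linarith [T2.2.2.1, T2.2.2.2.2.1]
  have u2' : 0 < UU ‖p 4‖ ‖p 2‖ (t 2) := by unfold UU; linarith [T2'.2.2.1, T2'.2.2.2.2.1]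
  have u3 : 0 < UU ‖p 4‖ ‖p 1‖ (t 3) := by unfold UU; linarith [T3.2.2.1, T3.2.2.2.2.1]
  have u3' : 0 < UU ‖p 1‖ ‖p 4‖ (t 3) := by unfold UU; linarith [T3'.2.2.1, T3'.2.2.2.2.1]
  -- the arcs of directions
  have s0 : bp 0 - ap 0 = Real.pi - (UU ‖p 1‖ ‖p 3‖ (t 0) + UU ‖p 1‖ ‖p 4‖ (t 3)) := by
    have := hba 0
    rw [zero_add, zero_sub, g0, g1, gm, tm] at this
    linarith
  have s1 : bp 1 - ap 1 = Real.pi - (UU ‖p 3‖ ‖p 1‖ (t 0) + UU ‖p 3‖ ‖p 2‖ (t 1)) := by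
    have := hba 1
    rw [show (1 : ℤ) + 1 = 2 by norm_num, show (1 : ℤ) - 1 = 0 by norm_num, g1, g2, g0] at this
    linarith
  have s2 : bp 2 - ap 2 = Real.pi - (UU ‖p 2‖ ‖p 3‖ (t 1) + UU ‖p 2‖ ‖p 4‖ (t 2)) := by
    have := hba 2
    rw [show (2 : ℤ) + 1 = 3 by norm_num, show (2 : ℤ) - 1 = 1 by norm_num, g2, g3, g1] at this
    linarith
  have s3 : bp 3 - ap 3 = Real.pi - (UU ‖p 4‖ ‖p 2‖ (t 2) + UU ‖p 4‖ ‖p 1‖ (t 3)) := by
    have := hba 3
    rw [show (3 : ℤ) + 1 = 4 by norm_num, show (3 : ℤ) - 1 = 2 by norm_num, g3, g4, g2] at this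
    linarith
  have l0 := hHD.le 0
  have l1 := hHD.le 1
  have l2 := hHD.le 2
  have l3 := hHD.le 3
  have n0 := hnk 0
  have n1 := hnk 1
  have n2 := hnk 2
  have n3 := hnk 3
  rw [zero_add] at n0
  rw [show (1 : ℤ) + 1 = 2 by norm_num] at n1
  rw [show (2 : ℤ) + 1 = 3 by norm_num] at n2
  rw [show (3 : ℤ) + 1 = 4 by norm_num] at n3
  have n3' : ap 3 < bp 3 ∨ ap 0 < bp 0 := by
    have ha := hHD.aper 0
    have hb := hHD.bper 0
    rw [zero_add] at ha hb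
    have ha' : ap 4 = ap 0 + 2 * Real.pi := by exact_mod_cast ha
    have hb' : bp 4 = bp 0 + 2 * Real.pi := by exact_mod_cast hb
    rcases n3 with h | h
    · exact Or.inl h
    · right; linarith
  -- (H)
  have H0 : hd ‖p 1‖ ‖p 3‖ (t 0) < h0 ‖p 1‖ + h0 ‖p 3‖ := by
    have h1 := hlg 0
    rw [zero_add, g0, g1, rp_lg, rp_lg, rp_lg, dist_zero_right, dist_zero_left, dist_eq_norm] at h1
    have h2 : ‖p 1 - p 3‖ = ch ‖p 1‖ ‖p 3‖ (t 0) := by
      conv_lhs => rw [q1, q3, rp_dist]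
    rw [h2] at h1
    unfold hd h0
    linarith
  have H1 : hd ‖p 3‖ ‖p 2‖ (t 1) < h0 ‖p 3‖ + h0 ‖p 2‖ := by
    have h1 := hlg 1
    rw [show (1 : ℤ) + 1 = 2 by norm_num, g1, g2, rp_lg, rp_lg, rp_lg, dist_zero_right,
      dist_zero_left, dist_eq_norm] at h1
    have h2 : ‖p 3 - p 2‖ = ch ‖p 3‖ ‖p 2‖ (t 1) := by
      conv_lhs => rw [q3, q2, rp_dist]
    rw [h2] at h1
    unfold hd h0
    linarith
  have H2 : hd ‖p 2‖ ‖p 4‖ (t 2) < h0 ‖p 2‖ + h0 ‖p 4‖ := by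
    have h1 := hlg 2
    rw [show (2 : ℤ) + 1 = 3 by norm_num, g2, g3, rp_lg, rp_lg, rp_lg, dist_zero_right,
      dist_zero_left, dist_eq_norm] at h1
    have h2 : ‖p 2 - p 4‖ = ch ‖p 2‖ ‖p 4‖ (t 2) := by
      conv_lhs => rw [q2, q4, rp_dist]
    rw [h2] at h1
    unfold hd h0
    linarith
  have H3 : hd ‖p 1‖ ‖p 4‖ (t 3) < h0 ‖p 1‖ + h0 ‖p 4‖ := by
    have h1 := hlg 3
    rw [show (3 : ℤ) + 1 = 4 by norm_num, g3, g4, rp_lg, rp_lg, rp_lg, dist_zero_right,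
      dist_zero_left, dist_eq_norm] at h1
    have hper : AX.e (φ 0 + t 0 + t 1 + t 2 + t 3) = AX.e (φ 0) := by
      rw [show φ 0 + t 0 + t 1 + t 2 + t 3 = φ 0 + 2 * Real.pi by linarith, we_two55]
    have h2 : ‖p 4 - p 1‖ = ch ‖p 4‖ ‖p 1‖ (t 3) := by
      conv_lhs => rw [q4, q1, ← hper, rp_dist]
    rw [h2] at h1
    rw [wp_hd_symm]
    unfold hd h0
    linarith
  -- the disks around the corners
  have d0 : h0 ‖p 1‖ < UU ‖p 1‖ ‖p 3‖ (t 0) := by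
    have h1 := hcb 0
    have h2 := heb 0
    rw [zero_add, g0, g1] at h2
    rw [g0] at h1
    refine rp_fwd R1 u0 (φ := φ 0) (β := bp 0) ?_ h2
    rw [← q1]; exact h1
  have d0' : h0 ‖p 3‖ < UU ‖p 3‖ ‖p 1‖ (t 0) := by
    have h1 := hca 1
    have h2 := hea 1
    rw [show (1 : ℤ) - 1 = 0 by norm_num, g1, g0] at h2
    rw [g1] at h1
    refine rp_bwd R3 u0' (φ := φ 1) (α := ap 1) ?_ h2
    rw [f1, ← q3]; exact h1
  have d1 : h0 ‖p 3‖ < UU ‖p 3‖ ‖p 2‖ (t 1) := by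
    have h1 := hcb 1
    have h2 := heb 1
    rw [show (1 : ℤ) + 1 = 2 by norm_num, g1, g2] at h2
    rw [g1] at h1
    refine rp_fwd R3 u1 (φ := φ 1) (β := bp 1) ?_ h2
    rw [f1, ← q3]; exact h1
  have d1' : h0 ‖p 2‖ < UU ‖p 2‖ ‖p 3‖ (t 1) := by
    have h1 := hca 2
    have h2 := hea 2
    rw [show (2 : ℤ) - 1 = 1 by norm_num, g2, g1] at h2
    rw [g2] at h1
    refine rp_bwd R2 u1' (φ := φ 2) (α := ap 2) ?_ h2
    rw [f2, ← q2]; exact h1
  have d2 : h0 ‖p 2‖ < UU ‖p 2‖ ‖p 4‖ (t 2) := by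
    have h1 := hcb 2
    have h2 := heb 2
    rw [show (2 : ℤ) + 1 = 3 by norm_num, g2, g3] at h2
    rw [g2] at h1
    refine rp_fwd R2 u2 (φ := φ 2) (β := bp 2) ?_ h2
    rw [f2, ← q2]; exact h1
  have d2' : h0 ‖p 4‖ < UU ‖p 4‖ ‖p 2‖ (t 2) := by
    have h1 := hca 3
    have h2 := hea 3
    rw [show (3 : ℤ) - 1 = 2 by norm_num, g3, g2] at h2
    rw [g3] at h1
    refine rp_bwd R4 u2' (φ := φ 3) (α := ap 3) ?_ h2
    rw [f3, ← q4]; exact h1
  have d3 : h0 ‖p 4‖ < UU ‖p 4‖ ‖p 1‖ (t 3) := by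
    have h1 := hcb 3
    have h2 := heb 3
    rw [show (3 : ℤ) + 1 = 4 by norm_num, g3, g4] at h2
    rw [g3] at h1
    refine rp_fwd R4 u3 (φ := φ 3) (β := bp 3) ?_ h2
    rw [f3, ← q4]; exact h1
  have d3' : h0 ‖p 1‖ < UU ‖p 1‖ ‖p 4‖ (t 3) := by
    have h1 := hca 0
    have h2 := hea 0
    rw [zero_sub, gm, g0, tm] at h2
    rw [g0] at h1
    refine rp_bwd R1 u3' (φ := φ 0) (α := ap 0) ?_ h2
    rw [← q1]; exact h1
  have hu : ∀ r s θ : ℝ, UU r s θ = un r s θ + hd r s θ := fun _ _ _ => rfl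
  refine ⟨φ 0, t 0, t 1, t 2, t 3, q1, by exact_mod_cast q3, by exact_mod_cast q2,
    by exact_mod_cast q4, ?_, s0, s1, s2, s3⟩
  exact {
    Ra0 := R1, Rx0 := R2, Ry0 := R3, Rb0 := R4
    Ra2 := hR2 1, Rx2 := hR2 2, Ry2 := hR2 3, Rb2 := hR2 4
    t10 := (ht 0).1, t20 := (ht 1).1, t30 := (ht 2).1, t40 := (ht 3).1
    t1p := (ht 0).2, t2p := (ht 1).2, t3p := (ht 2).2, t4p := (ht 3).2
    ts := hts
    pay := c0
    pyx := c1
    pxb := c2
    pab := by rw [wp_ch_symm]; exact c3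
    pax := c02
    pyb := c13
    ea := by linarith
    ey := by linarith
    ex := by linarith
    eb := by linarith
    nay := by
      rcases n0 with h | h
      · left; linarith
      · right; linarith
    nyx := by
      rcases n1 with h | h
      · left; linarith
      · right; linarith
    nxb := by
      rcases n2 with h | h
      · left; linarith
      · right; linarith
    nab := by
      rcases n3' with h | h
      · right; linarith
      · left; linarith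
    fa := by
      have := hu ‖p 1‖ ‖p 3‖ (t 0); have := hu ‖p 1‖ ‖p 4‖ (t 3)
      linarith [T0.2.2.1, T3'.2.2.1]
    fy := by
      have := hu ‖p 3‖ ‖p 1‖ (t 0); have := hu ‖p 3‖ ‖p 2‖ (t 1)
      linarith [T0'.2.2.1, T1.2.2.1]
    fx := by
      have := hu ‖p 2‖ ‖p 3‖ (t 1); have := hu ‖p 2‖ ‖p 4‖ (t 2)
      linarith [T1'.2.2.1, T2.2.2.1]
    fb := by
      have := hu ‖p 4‖ ‖p 2‖ (t 2); have := hu ‖p 4‖ ‖p 1‖ (t 3)
      linarith [T2'.2.2.1, T3.2.2.1]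
    hay := d0
    hya := d0'
    hyx := d1
    hxy := d1'
    hxb := d2
    hbx := d2'
    hab := d3'
    hba := d3
    Hay := H0
    Hyx := H1
    Hxb := H2
    Hab := H3 }

end E5
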